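import Mathlib

namespace Pool.Agent.Results.MP_4db40a_lc.IntervalCriterion
open Classical Finset

/-- The states of a monotone automaton that follows all words over `C` with consecutive letters
in `R`, and dies as soon as two consecutive letters are not in `R`, order the letters of `C` so
that all in-neighbourhoods are convex. -/
theorem core {Z : Type} [LinearOrder Z] [Fintype Z] (C : Finset ℕ) (R : ℕ → ℕ → Prop)
    (f : ℕ → Z → Z) (hf : ∀ a ∈ C, Monotone (f a)) (D : Z → Prop)
    (hD : ∀ a ∈ C, ∀ z, D z → D (f a z)) (X : ℕ → Z → Prop)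
    (h1 : ∀ a ∈ C, ∀ x, X a x → ¬ D x)
    (h2 : ∀ a ∈ C, ∀ b ∈ C, ∀ x, X a x → R a b → X b (f b x))
    (h3 : ∀ a ∈ C, ∀ b ∈ C, ∀ x, X a x → ¬ R a b → D (f b x))
    (hc : ∀ a ∈ C, ∀ b ∈ C, Relation.ReflTransGen (fun x y => x ∈ C ∧ y ∈ C ∧ R x y) a b)
    (h0 : ∀ a ∈ C, ∃ x, X a x) (z0 : Z) :
    ∃ x : ℕ → Z, ∀ a ∈ C, ∀ b ∈ C, ∀ e ∈ C, ∀ c ∈ C, R a c → R b c → x a ≤ x e → x e ≤ x b →
      R e c := by
  let blk : Z → ℕ := fun z => (univ.filter fun d => D d ∧ d < z).card
  have lt_blk : ∀ x y d, ¬ D y → D d → x ≤ d → d ≤ y → blk x < blk y := by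
    intro x y d hy hd hx hy'
    refine card_lt_card ⟨fun e he => ?_, fun h => ?_⟩
    · simp only [mem_filter, mem_univ, true_and] at he ⊢
      exact ⟨he.1, he.2.trans_le (hx.trans hy')⟩
    · have := @h d (by simpa using ⟨hd, lt_of_le_of_ne hy' fun e => hy (e ▸ hd)⟩)
      simp only [mem_filter, mem_univ, true_and] at this
      exact absurd this.2 (not_lt.2 hx)
  have sep1 : ∀ c ∈ C, ∀ x y, ¬ D (f c y) → blk x < blk y → blk (f c x) < blk (f c y) := by
    intro c hcC x y hy h
    by_contra hc
    refine absurd (card_le_card fun e he => ?_) (not_le.2 h)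
    simp only [mem_filter, mem_univ, true_and] at he ⊢
    refine ⟨he.1, lt_of_not_ge fun hx => hc ?_⟩
    exact lt_blk _ _ _ hy (hD c hcC e he.1) (hf c hcC hx) (hf c hcC he.2.le)
  let B : ℕ → Finset ℕ := fun a => (univ.filter (X a)).image blk
  let V : ℕ → Finset Z := fun c => univ.filter fun y => ∃ a ∈ C, R a c ∧ X a y
  let T : ℕ → Finset (ℕ × ℕ) := fun c => (V c).image fun y => (blk y, blk (f c y))
  have alive : ∀ c ∈ C, ∀ y ∈ V c, X c (f c y) := by
    intro c hcC y hy
    obtain ⟨a, ha, hac, hx⟩ := (mem_filter.1 hy).2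
    exact h2 a ha c hcC y hx hac
  have sep : ∀ c ∈ C, ∀ x ∈ V c, ∀ y ∈ V c, blk (f c x) = blk (f c y) → blk x = blk y := by
    intro c hcC x hx y hy h
    rcases lt_trichotomy (blk x) (blk y) with h' | h' | h'
    · exact absurd h (sep1 c hcC x y (h1 _ hcC _ (alive c hcC y hy)) h').ne
    · exact h'
    · exact absurd h (sep1 c hcC y x (h1 _ hcC _ (alive c hcC x hx)) h').ne'
  have hsnd : ∀ c ∈ C, Set.InjOn Prod.snd (T c : Set (ℕ × ℕ)) := by
    intro c hcC p hp q hq h
    obtain ⟨x, hx, rfl⟩ := mem_image.1 (mem_coe.1 hp)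
    obtain ⟨y, hy, rfl⟩ := mem_image.1 (mem_coe.1 hq)
    have h' : blk (f c x) = blk (f c y) := h
    rw [sep c hcC x hx y hy h', h']
  have hT : ∀ c ∈ C, (T c).card ≤ (B c).card := by
    intro c hcC
    rw [← card_image_of_injOn (hsnd c hcC)]
    refine card_le_card fun t ht => ?_
    obtain ⟨p, hp, rfl⟩ := mem_image.1 ht
    obtain ⟨x, hx, rfl⟩ := mem_image.1 hp
    exact mem_image_of_mem _ (by simpa using alive c hcC x hx)
  have hW : ∀ c, ((V c).image blk).card ≤ (T c).card := by
    intro c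
    have : (V c).image blk = (T c).image Prod.fst := by
      simp [T, image_image, Function.comp_def]
    rw [this]
    exact card_image_le
  have hBW : ∀ a ∈ C, ∀ c, R a c → B a ⊆ (V c).image blk := fun a ha c h =>
    image_subset_image fun y hy => by
      simp only [V, mem_filter, mem_univ, true_and] at hy ⊢
      exact ⟨a, ha, h, hy⟩
  have mono : ∀ a ∈ C, ∀ b ∈ C, (B a).card ≤ (B b).card := by
    intro a ha b hb
    have := hc a ha b hb
    induction this with
    | refl => exact le_rfl
    | tail _ h ih =>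
      exact (ih h.1).trans ((card_le_card (hBW _ h.1 _ h.2.2)).trans ((hW _).trans (hT _ h.2.1)))
  have hE : ∀ a ∈ C, ∀ c ∈ C, R a c → B a = (V c).image blk := fun a ha c hcC h =>
    eq_of_subset_of_card_le (hBW a ha c h) (((hW c).trans (hT c hcC)).trans (mono c hcC a ha))
  have hfst : ∀ a ∈ C, ∀ c ∈ C, R a c → Set.InjOn Prod.fst (T c : Set (ℕ × ℕ)) := by
    intro a ha c hcC h
    refine card_image_iff.1 (le_antisymm card_image_le ?_)
    have e : (T c).image Prod.fst = (V c).image blk := by
      simp [T, image_image, Function.comp_def]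
    rw [e]
    exact (hT c hcC).trans ((mono c hcC a ha).trans (card_le_card (hBW a ha c h)))
  have hx : ∀ a, ∃ x, a ∈ C → X a x ∧ ∀ y, X a y → blk x ≤ blk y := by
    intro a
    by_cases ha : a ∈ C
    · obtain ⟨x, hx, hmin⟩ := exists_min_image (univ.filter (X a)) blk
        (by obtain ⟨x, hx⟩ := h0 a ha; exact ⟨x, by simpa using hx⟩)
      exact ⟨x, fun _ => ⟨by simpa using hx, fun y hy => hmin y (by simpa using hy)⟩⟩
    · exact ⟨z0, fun h => absurd h ha⟩
  choose x hx using hx
  refine ⟨x, fun a ha b hb e he c hcC hac hbc l1 l2 => ?_⟩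
  by_contra hec
  have hbl : blk (x a) = blk (x b) := by
    have hab : B a = B b := (hE a ha c hcC hac).trans (hE b hb c hcC hbc).symm
    refine le_antisymm ?_ ?_
    · have : blk (x b) ∈ B a := hab ▸ mem_image_of_mem _ (by simpa using (hx b hb).1)
      obtain ⟨y, hy, hy'⟩ := mem_image.1 this
      rw [← hy']
      exact (hx a ha).2 y (by simpa using hy)
    · have : blk (x a) ∈ B b := hab ▸ mem_image_of_mem _ (by simpa using (hx a ha).1)
      obtain ⟨y, hy, hy'⟩ := mem_image.1 this
      rw [← hy']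
      exact (hx b hb).2 y (by simpa using hy)
  have ma : x a ∈ V c := by
    simp only [V, mem_filter, mem_univ, true_and]; exact ⟨a, ha, hac, (hx a ha).1⟩
  have mb : x b ∈ V c := by
    simp only [V, mem_filter, mem_univ, true_and]; exact ⟨b, hb, hbc, (hx b hb).1⟩
  have lt := lt_blk _ _ _ (h1 _ hcC _ (alive c hcC _ mb)) (h3 e he c hcC _ (hx e he).1 hec)
    (hf c hcC l1) (hf c hcC l2)
  have := hfst a ha c hcC hac (mem_coe.2 (mem_image_of_mem (fun y => (blk y, blk (f c y))) ma))
    (mem_coe.2 (mem_image_of_mem (fun y => (blk y, blk (f c y))) mb)) hbl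
  exact lt.ne (congrArg Prod.snd this)


/-! ### Definitions -/

/-- `w` is a word over the alphabet `U` (letters are natural numbers). -/
def Over (U : Finset ℕ) (w : List ℕ) : Prop := ∀ a ∈ w, a ∈ U

/-- `S` is an ordered language over `U`: a complete automaton accepts it whose states
`0 < 1 < ⋯ < n - 1` are moved monotonically by every letter of `U`. -/
def ORD (U : Finset ℕ) (S : Set (List ℕ)) : Prop :=
  ∃ (n : ℕ) (δ : Fin n → ℕ → Fin n) (z₀ : Fin n) (F : Set (Fin n)),
    (∀ a ∈ U, Monotone fun z => δ z a) ∧ ∀ w, w ∈ S ↔ Over U w ∧ w.foldl δ z₀ ∈ F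

/-- `S` is a strictly locally `k`-testable language over `U`. -/
def SLT (k : ℕ) (U : Finset ℕ) (S : Set (List ℕ)) : Prop :=
  (∀ w ∈ S, Over U w) ∧ ∃ B I E : Set (List ℕ), ∀ w, Over U w → k ≤ w.length →
    (w ∈ S ↔ w.take k ∈ B ∧ w.drop (w.length - k) ∈ E ∧
      ∀ j, 1 ≤ j → j + k + 1 ≤ w.length → (w.drop j).take k ∈ I)

/-- Contextual grammars with selection languages in the family `𝔏`: total alphabet `V`, finite
set `A` of axioms, and finitely many selection pairs `(S, C)`, listed as `(U, S, C)` with `U` the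
subalphabet over which `S` is a member of `𝔏` and `C` a finite set of contexts. -/
structure Gr (𝔏 : Finset ℕ → Set (List ℕ) → Prop) where
  V : Finset ℕ
  A : Finset (List ℕ)
  hA : ∀ w ∈ A, Over V w
  P : List (Finset ℕ × Set (List ℕ) × Finset (List ℕ × List ℕ))
  hP : ∀ p ∈ P, p.1 ⊆ V ∧ 𝔏 p.1 p.2.1 ∧ ∀ c ∈ p.2.2, Over V c.1 ∧ Over V c.2

/-- One external derivation step. -/
def Step {𝔏} (G : Gr 𝔏) (x y : List ℕ) : Prop :=
  ∃ p ∈ G.P, x ∈ p.2.1 ∧ ∃ c ∈ p.2.2, y = c.1 ++ x ++ c.2

/-- The generated language. -/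
def lang {𝔏} (G : Gr 𝔏) : Set (List ℕ) := {w | ∃ a ∈ G.A, Relation.ReflTransGen (Step G) a w}

/-- The languages generated externally with selection in `𝔏`. -/
def EC (𝔏 : Finset ℕ → Set (List ℕ) → Prop) : Set (Set (List ℕ)) := {L | ∃ G : Gr 𝔏, lang G = L}

/-- The language `Σ* ∪ {m} K {m}` over the letters `0, …, m`, where `Σ = {0, …, m-1}`, the last
letter `m` is a marker, and `K` is the set of words over `Σ` all of whose pairs `ab` of
consecutive letters satisfy `R a b`. -/
def L (m : ℕ) (R : ℕ → ℕ → Prop) : Set (List ℕ) :=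
  {w | Over (range m) w ∨ ∃ v, Over (range m) v ∧ v.IsChain R ∧ w = m :: v ++ [m]}

/-- On the set `C` of letters, any letter can be reached from any other by following `R`. -/
def StronglyConnected (C : Finset ℕ) (R : ℕ → ℕ → Prop) : Prop :=
  ∀ a ∈ C, ∀ b ∈ C, Relation.ReflTransGen (fun x y => x ∈ C ∧ y ∈ C ∧ R x y) a b

/-- The letters in `C` can be put on a line (`pos` gives the positions) such that for each
`c ∈ C` the letters `a ∈ C` with `R a c` are consecutive, i.e. form an interval. -/
def Intervals (C : Finset ℕ) (R : ℕ → ℕ → Prop) : Prop :=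
  ∃ pos : ℕ → ℕ, Set.InjOn pos (C : Set ℕ) ∧ ∀ a ∈ C, ∀ b ∈ C, ∀ e ∈ C, ∀ c ∈ C,
    R a c → R b c → pos a < pos e → pos e < pos b → R e c

/-! ### Words that follow `R` -/

def OK (C : Finset ℕ) (R : ℕ → ℕ → Prop) (w : List ℕ) : Prop := Over C w ∧ w.IsChain R

section words
variable {C : Finset ℕ} {R : ℕ → ℕ → Prop}

lemma OK.pre {u v} (h : OK C R (u ++ v)) : OK C R u :=
  ⟨fun a ha => h.1 a (by simp [ha]), h.2.left_of_append⟩

lemma OK.snoc {u : List ℕ} {a b} (h : OK C R (u ++ [a])) (hb : b ∈ C) (hab : R a b) :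
    OK C R (u ++ [a] ++ [b]) := by
  refine ⟨fun c hc => ?_, ?_⟩
  · rcases List.mem_append.1 hc with hc | hc
    exacts [h.1 c hc, by simp_all]
  · exact List.isChain_append.2 ⟨h.2, by simp, by simpa using hab⟩

lemma out (hC : 2 ≤ C.card) (hs : StronglyConnected C R) {a : ℕ} (ha : a ∈ C) :
    ∃ c ∈ C, R a c := by
  obtain ⟨b, hb, hab⟩ := exists_mem_ne (s := C) (by omega) a
  rcases (hs a ha b hb).cases_head with h | ⟨c, h, -⟩
  · exact absurd h.symm hab
  · exact ⟨c, h.2.1, h.2.2⟩

lemma OK.path {u : List ℕ} {a b} (h : OK C R (u ++ [a]))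
    (hp : Relation.ReflTransGen (fun x y => x ∈ C ∧ y ∈ C ∧ R x y) a b) :
    ∃ r, OK C R (u ++ r ++ [b]) := by
  induction hp with
  | refl => exact ⟨[], by simpa using h⟩
  | tail _ hbc ih =>
    obtain ⟨r, hr⟩ := ih
    exact ⟨r ++ [_], by simpa using hr.snoc hbc.2.1 hbc.2.2⟩

lemma OK.ext1 (hC : 2 ≤ C.card) (hs : StronglyConnected C R) {u : List ℕ} (h : OK C R u)
    {b : ℕ} (hb : b ∈ C) : ∃ r, OK C R (u ++ r ++ [b]) := by
  rcases List.eq_nil_or_concat u with rfl | ⟨u, a, rfl⟩
  · exact ⟨[], by simpa [OK, Over] using hb⟩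
  · rw [List.concat_eq_append] at h ⊢
    have ha : a ∈ C := h.1 a (by simp)
    obtain ⟨c, hc, hac⟩ := out hC hs ha
    exact (h.snoc hc hac).path (hs c hc b hb)

lemma OK.ext (hC : 2 ≤ C.card) (hs : StronglyConnected C R) {u : List ℕ} (h : OK C R u)
    (n : ℕ) : ∃ r, n ≤ r.length ∧ OK C R (u ++ r) := by
  obtain ⟨b, hb⟩ : C.Nonempty := card_pos.1 (by omega)
  induction n with
  | zero => exact ⟨[], by simpa using h⟩
  | succ n ih =>
    obtain ⟨r, h1, h2⟩ := ih
    obtain ⟨s, hs⟩ := h2.ext1 hC hs hb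
    exact ⟨r ++ s ++ [b], by simp; omega, by simpa using hs⟩

lemma baire {ι : Type} (T : ι → List ℕ → Prop) (l : List ι) : ∀ p, OK C R p →
    (∀ w, OK C R (p ++ w) → ∃ i ∈ l, T i (p ++ w)) →
    ∃ i ∈ l, ∃ q, OK C R q ∧ ∀ w, OK C R (q ++ w) → ∃ w', T i (q ++ w ++ w') := by
  induction l with
  | nil => intro p hp h; simpa using h [] (by simpa using hp)
  | cons i l ih =>
    intro p hp h
    by_cases hc : ∀ w, OK C R (p ++ w) → ∃ w', T i (p ++ w ++ w')
    · exact ⟨i, by simp, p, hp, hc⟩
    · push Not at hc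
      obtain ⟨w, hw, hc⟩ := hc
      obtain ⟨j, hj, r⟩ := ih (p ++ w) hw fun v hv => by
        obtain ⟨j, hj, ht⟩ := h (w ++ v) (by simpa using hv)
        rcases List.mem_cons.1 hj with rfl | hj
        · exact absurd (by simpa using ht) (hc v)
        · exact ⟨j, hj, by simpa using ht⟩
      exact ⟨j, by simp [hj], r⟩

end words

lemma last_step {𝔏} (G : Gr 𝔏) {y} (h : y ∈ lang G) : y ∈ G.A ∨ ∃ p ∈ G.P, ∃ c ∈ p.2.2, ∃ x,
    x ∈ lang G ∧ x ∈ p.2.1 ∧ y = c.1 ++ x ++ c.2 ∧ (c.1 ≠ [] ∨ c.2 ≠ []) := by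
  obtain ⟨a, ha, h⟩ := h
  induction h with
  | refl => exact Or.inl ha
  | tail h1 h ih =>
    obtain ⟨p, hp, hx, c, hc, rfl⟩ := h
    by_cases e : c.1 ≠ [] ∨ c.2 ≠ []
    · exact Or.inr ⟨p, hp, c, hc, _, ⟨a, ha, h1⟩, hx, rfl, e⟩
    · push Not at e
      simpa [e.1, e.2] using ih

/-! ### Ordered selection forces the interval property -/

lemma intervals_of_ord {m : ℕ} {R : ℕ → ℕ → Prop} {C : Finset ℕ} (hCm : C ⊆ range m)
    (hs : StronglyConnected C R) (hL : L m R ∈ EC ORD) : Intervals C R := by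
  by_cases hC : 2 ≤ C.card
  swap
  · refine ⟨id, Function.injective_id.injOn, fun a ha b hb e he c hc hac _ _ _ => ?_⟩
    have := card_le_one.1 (by omega : C.card ≤ 1) a ha e he
    rwa [this] at hac
  obtain ⟨G, hL⟩ := hL
  obtain ⟨p0, hp0, ok0⟩ := OK.ext (u := []) hC hs (by simp [OK, Over]) (G.A.sup List.length)
  obtain ⟨⟨p, u, v⟩, hi, q, hq, dens⟩ := baire (C := C) (R := R)
    (fun (i : (Finset ℕ × Set (List ℕ) × Finset (List ℕ × List ℕ)) × List ℕ × List ℕ) w =>
      ∃ x, Over (range m) x ∧ x ∈ i.1.2.1 ∧ i.2.1 ++ x ++ i.2.2 = m :: w ++ [m])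
    (G.P.flatMap fun p => p.2.2.toList.map fun c => (p, c)) p0 (by simpa using ok0) (by
      intro w hw
      have hm : m :: (p0 ++ w) ++ [m] ∈ L m R := Or.inr ⟨_, fun a ha => hCm (hw.1 a ha), hw.2, rfl⟩
      rcases last_step G (hL ▸ hm : _ ∈ lang G) with h | h
      · have := Finset.le_sup (f := List.length) h
        simp only [List.length_append, List.length_cons] at this; omega
      obtain ⟨p, hp, ⟨u, v⟩, hc, x, hx, hS, e, ne⟩ := h
      refine ⟨(p, u, v), by simpa using ⟨hp, hc⟩, x, ?_, hS, e.symm⟩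
      rw [hL] at hx
      refine hx.resolve_right ?_
      rintro ⟨w', -, -, rfl⟩
      have c0 : (p0 ++ w).count m = 0 :=
        List.count_eq_zero.2 fun h => by simpa using hCm (hw.1 m h)
      have c1 := congrArg (List.count m) e
      rcases ne with ne | ne
      · obtain ⟨a, u, rfl⟩ := List.exists_cons_of_ne_nil ne
        obtain rfl : m = a := by simpa using congrArg List.head? e
        simp only [List.count_append, List.count_cons_self, List.count_nil] at c0 c1
        omega
      · obtain ⟨v, a, rfl⟩ := (List.eq_nil_or_concat v).resolve_left ne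
        rw [List.concat_eq_append] at e c1
        obtain rfl : m = a := by
          simpa using (List.append_inj' (e.trans (List.append_assoc _ _ _).symm) rfl).2
        simp only [List.count_append, List.count_cons_self, List.count_nil] at c0 c1
        omega)
  obtain ⟨hp, hc⟩ : p ∈ G.P ∧ (u, v) ∈ p.2.2 := by
    simp only [List.mem_flatMap, List.mem_map, Finset.mem_toList] at hi
    obtain ⟨p', h1, c, h2, e⟩ := hi
    cases e
    exact ⟨h1, h2⟩
  obtain ⟨n, δ, z0, F, mono, hS⟩ := (G.hP p hp).2.1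
  obtain ⟨r, hr, hq1⟩ := hq.ext hC hs u.length
  replace dens : ∀ w, OK C R (q ++ r ++ w) → ∃ w' x, Over (range m) x ∧ x ∈ p.2.1 ∧
      u ++ x ++ v = m :: (q ++ r) ++ w ++ w' ++ [m] := fun w hw => by
    simpa using dens (r ++ w) (by simpa using hw)
  have hlen : u.length ≤ (q ++ r).length := by simp; omega
  generalize q ++ r = q1 at dens hq1 hlen
  obtain ⟨s, hs'⟩ : u <+: m :: q1 := by
    obtain ⟨w', x, -, -, e⟩ := dens [] (by simpa using hq1)
    exact List.prefix_of_prefix_length_le (l₃ := u ++ x ++ v) ⟨x ++ v, by simp⟩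
      ⟨w' ++ [m], by simp [e]⟩ (by simp; omega)
  have one : ∀ w, OK C R (q1 ++ w) → ∃ t, s ++ w ++ t ∈ p.2.1 ∧ Over (range m) (s ++ w ++ t) := by
    intro w hw
    obtain ⟨r, hr, h⟩ := hw.ext hC hs v.length
    obtain ⟨w', x, h1, h2, e⟩ := dens (w ++ r) (by simpa using h)
    rw [← hs'] at e
    have e' : x ++ v = s ++ w ++ (r ++ w' ++ [m]) := by simpa using e
    have hl := congrArg List.length e'
    obtain ⟨t, rfl⟩ := List.prefix_of_prefix_length_le (l₁ := s ++ w) (l₂ := x) (l₃ := x ++ v)
      ⟨_, e'.symm⟩ ⟨v, rfl⟩ (by simp at hl ⊢; omega)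
    exact ⟨t, h2, h1⟩
  have two : ∀ w t, s ++ w ++ t ∈ p.2.1 → Over (range m) (s ++ w ++ t) →
      (q1 ++ w).IsChain R := by
    intro w t h1 h2
    obtain ⟨a, ha, h⟩ : s ++ w ++ t ∈ lang G := hL ▸ Or.inl h2
    have : u ++ (s ++ w ++ t) ++ v ∈ L m R := hL ▸ ⟨a, ha, h.tail ⟨p, hp, h1, _, hc, rfl⟩⟩
    rw [show u ++ (s ++ w ++ t) ++ v = m :: (q1 ++ w ++ (t ++ v)) by
      simp only [← List.append_assoc, hs', List.cons_append]] at this
    rcases this with h | ⟨w', h, h', e⟩
    · simpa using h m (by simp)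
    · rcases List.prefix_concat_iff.1 ⟨_, (List.cons.inj e).2⟩ with e | ⟨x, e⟩
      · have : m ∈ q1 ++ w := by simp [e]
        rcases List.mem_append.1 this with h | h
        · simpa using hCm (hq1.1 m h)
        · simpa using h2 m (by simp [h])
      · exact (e ▸ h').left_of_append
  have hU : ∀ a ∈ C, a ∈ p.1 := by
    intro a ha
    obtain ⟨r, h⟩ := hq1.ext1 hC hs ha
    obtain ⟨t, h1, -⟩ := one (r ++ [a]) (by simpa using h)
    exact ((hS _).1 h1).1 a (by simp)
  obtain ⟨x, hx⟩ := core C R (fun a z => δ z a) (fun a ha => mono a (hU a ha))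
    (fun z => ¬ ∃ t, Over p.1 t ∧ Over (range m) t ∧ t.foldl δ z ∈ F)
    (by
      rintro a ha z h ⟨t, h1, h2, h3⟩
      exact h ⟨a :: t, List.forall_mem_cons.2 ⟨hU a ha, h1⟩,
        List.forall_mem_cons.2 ⟨hCm ha, h2⟩, h3⟩)
    (fun a x => ∃ w, OK C R (q1 ++ w ++ [a]) ∧ x = (s ++ w ++ [a]).foldl δ z0)
    (by
      rintro a ha _ ⟨w, h, rfl⟩ hc
      obtain ⟨t, h1, h2⟩ := one (w ++ [a]) (by simpa using h)
      obtain ⟨h3, h4⟩ := (hS _).1 h1
      exact hc ⟨t, fun b hb => h3 b (by simp [hb]), fun b hb => h2 b (by simp [hb]),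
        by simpa using h4⟩)
    (by
      rintro a ha b hb _ ⟨w, h, rfl⟩ hab
      exact ⟨w ++ [a], by simpa using h.snoc hb hab, by simp⟩)
    (by
      rintro a ha b hb _ ⟨w, h, rfl⟩ hab ⟨t, h1, h2, h3⟩
      obtain ⟨t', h4, h5⟩ := one (w ++ [a]) (by simpa using h)
      have h6 := ((hS _).1 h4).1
      have := two (w ++ [a] ++ [b]) t ((hS _).2 ⟨fun c hc => ?_, by simpa using h3⟩)
        fun c hc => ?_
      · have := (List.isChain_append.1 (show List.IsChain _ (q1 ++ w ++ [a, b]) by
          simpa using this)).2.1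
        simp at this
        exact hab this
      · by_cases hc' : c ∈ t
        · exact h1 c hc'
        · by_cases hcb : c = b
          · exact hcb ▸ hU b hb
          · exact h6 c (by simp only [List.mem_append, List.mem_singleton] at hc ⊢; tauto)
      · by_cases hc' : c ∈ t
        · exact h2 c hc'
        · by_cases hcb : c = b
          · exact hcb ▸ hCm hb
          · exact h5 c (by simp only [List.mem_append, List.mem_singleton] at hc ⊢; tauto))
    hs
    (by
      intro a ha
      obtain ⟨r, h⟩ := hq1.ext1 hC hs ha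
      exact ⟨_, r, h, rfl⟩) z0
  refine ⟨fun a => (x a : ℕ) * (m + 1) + a, ?_, fun a ha b hb e he c hc hac hbc l1 l2 =>
    hx a ha b hb e he c hc hac hbc ?_ ?_⟩
  · intro a ha b hb h
    have h1 := mem_range.1 (hCm ha)
    have h2 := mem_range.1 (hCm hb)
    have h' : (x a : ℕ) * (m + 1) + a = (x b : ℕ) * (m + 1) + b := h
    rcases lt_trichotomy (x a : ℕ) (x b : ℕ) with h3 | h3 | h3
    · nlinarith
    · rw [h3] at h'; omega
    · nlinarith
  · have h1 := mem_range.1 (hCm ha)
    have h2 := mem_range.1 (hCm he)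
    by_contra hlt
    have h3 : (x e : ℕ) + 1 ≤ x a := by
      have := not_le.1 hlt
      exact this
    nlinarith
  · have h1 := mem_range.1 (hCm hb)
    have h2 := mem_range.1 (hCm he)
    by_contra hlt
    have h3 : (x b : ℕ) + 1 ≤ x e := by
      have := not_le.1 hlt
      exact this
    nlinarith

/-! ### The interval property gives ordered selection -/

lemma ord_aux {m : ℕ} {R : ℕ → ℕ → Prop} {pos : ℕ → ℕ} (hinj : Set.InjOn pos (range m : Set ℕ))
    (hcv : ∀ a ∈ range m, ∀ b ∈ range m, ∀ e ∈ range m, ∀ c ∈ range m,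
      R a c → R b c → pos a < pos e → pos e < pos b → R e c) {a0 : ℕ} (ha0 : a0 ∈ range m) :
    ORD (range m) {w | Over (range m) w ∧ (a0 :: w).IsChain R} := by
  let N : ℕ := (range m).sup pos + 1
  have hN : ∀ a ∈ range m, pos a + 1 ≤ N := fun a ha =>
    Nat.succ_le_succ (Finset.le_sup (f := pos) ha)
  let nx : ℕ → ℕ → ℕ := fun z c =>
    if ∃ a ∈ range m, ∃ b ∈ range m, R a c ∧ R b c ∧ pos a + 1 ≤ z ∧ z ≤ pos b + 1 then
      min (pos c + 1) (N + 1)
    else if ∃ a ∈ range m, R a c ∧ z < pos a + 1 then 0 else N + 1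
  have hnx : ∀ z c, nx z c < N + 2 := by
    intro z c
    simp only [nx]
    split_ifs <;> omega
  let δ : Fin (N + 2) → ℕ → Fin (N + 2) := fun z c => ⟨nx z c, hnx z c⟩
  let F : Set (Fin (N + 2)) := {z | (z : ℕ) ≠ 0 ∧ (z : ℕ) ≠ N + 1}
  have hdead1 : ∀ z c, z ∉ F → δ z c ∉ F := by
    intro z c hz
    have hz' : (z : ℕ) = 0 ∨ (z : ℕ) = N + 1 := by
      by_contra h; push Not at h; exact hz h
    have : nx z c = 0 ∨ nx z c = N + 1 := by
      simp only [nx]
      rw [if_neg]
      · split_ifs <;> simp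
      · rintro ⟨a, ha, b, hb, -, -, h1, h2⟩
        have := hN b hb
        omega
    rintro ⟨h1, h2⟩
    rcases this with h | h
    exacts [h1 h, h2 h]
  have hdead : ∀ w : List ℕ, ∀ z, z ∉ F → w.foldl δ z ∉ F := by
    intro w
    induction w with
    | nil => exact fun z hz => hz
    | cons c w ih => exact fun z hz => ih _ (hdead1 z c hz)
  have st : ∀ a ∈ range m, pos a + 1 < N + 2 := fun a ha => by have := hN a ha; omega
  have halive : ∀ w : List ℕ, Over (range m) w → ∀ e (he : e ∈ range m),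
      (w.foldl δ ⟨pos e + 1, st e he⟩ ∈ F ↔ (e :: w).IsChain R) := by
    intro w
    induction w with
    | nil =>
      intro _ e he
      have := hN e he
      simp only [List.foldl_nil, List.isChain_singleton, iff_true]
      exact ⟨by simp, by simp; omega⟩
    | cons c w ih =>
      intro hw e he
      have hc : c ∈ range m := hw c (by simp)
      have hcN := hN c hc
      have hw' : Over (range m) w := fun b hb => hw b (by simp [hb])
      rw [List.foldl_cons, List.isChain_cons_cons]
      by_cases hR : R e c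
      · have : δ ⟨pos e + 1, st e he⟩ c = ⟨pos c + 1, st c hc⟩ := by
          apply Fin.ext
          show nx (pos e + 1) c = pos c + 1
          simp only [nx]
          rw [if_pos ⟨e, he, e, he, hR, hR, le_rfl, le_rfl⟩]
          omega
        rw [this, ih hw' c hc]
        simp [hR]
      · have : δ ⟨pos e + 1, st e he⟩ c ∉ F := by
          have : nx (pos e + 1) c = 0 ∨ nx (pos e + 1) c = N + 1 := by
            simp only [nx]
            rw [if_neg]
            · split_ifs <;> simp
            · rintro ⟨a, ha, b, hb, hac, hbc, h1, h2⟩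
              have h1' : pos a < pos e := lt_of_le_of_ne (by omega) fun h =>
                hR (hinj (mem_coe.2 ha) (mem_coe.2 he) h ▸ hac)
              have h2' : pos e < pos b := lt_of_le_of_ne (by omega) fun h =>
                hR (hinj (mem_coe.2 he) (mem_coe.2 hb) h ▸ hbc)
              exact hR (hcv a ha b hb e he c hc hac hbc h1' h2')
          rintro ⟨h1, h2⟩
          rcases this with h | h
          exacts [h1 h, h2 h]
        exact iff_of_false (hdead w _ this) fun h => hR h.1
  refine ⟨N + 2, δ, ⟨pos a0 + 1, st a0 ha0⟩, F, fun c hc => ?_, fun w => ?_⟩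
  · intro z z' hz
    show nx z c ≤ nx z' c
    have hz' : (z : ℕ) ≤ z' := hz
    have hcN := hN c hc
    simp only [nx]
    by_cases c1 : ∃ a ∈ range m, ∃ b ∈ range m, R a c ∧ R b c ∧ pos a + 1 ≤ (z : ℕ) ∧
        (z : ℕ) ≤ pos b + 1
    · rw [if_pos c1]
      by_cases c2 : ∃ a ∈ range m, ∃ b ∈ range m, R a c ∧ R b c ∧ pos a + 1 ≤ (z' : ℕ) ∧
          (z' : ℕ) ≤ pos b + 1
      · rw [if_pos c2]
      · rw [if_neg c2, if_neg]
        · omega
        · rintro ⟨a', ha', hac', h3⟩
          obtain ⟨a, ha, b, hb, hac, hbc, h1, h2⟩ := c1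
          exact c2 ⟨a, ha, a', ha', hac, hac', by omega, by omega⟩
    · rw [if_neg c1]
      by_cases c2 : ∃ a ∈ range m, ∃ b ∈ range m, R a c ∧ R b c ∧ pos a + 1 ≤ (z' : ℕ) ∧
          (z' : ℕ) ≤ pos b + 1
      · rw [if_pos c2, if_pos]
        · omega
        · obtain ⟨a, ha, b, hb, hac, hbc, h1, h2⟩ := c2
          refine ⟨a, ha, hac, ?_⟩
          by_contra h
          exact c1 ⟨a, ha, b, hb, hac, hbc, by omega, by omega⟩
      · rw [if_neg c2]
        by_cases c3 : ∃ a ∈ range m, R a c ∧ (z' : ℕ) < pos a + 1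
        · rw [if_pos c3, if_pos]
          obtain ⟨a, ha, hac, h3⟩ := c3
          exact ⟨a, ha, hac, by omega⟩
        · rw [if_neg c3]
          split_ifs <;> omega
  · constructor
    · rintro ⟨h1, h2⟩
      exact ⟨h1, (halive w h1 a0 ha0).2 h2⟩
    · rintro ⟨h1, h2⟩
      exact ⟨h1, (halive w h1 a0 ha0).1 h2⟩

lemma ord_univ (m : ℕ) : ORD (range m) {w | Over (range m) w} :=
  ⟨1, fun z _ => z, 0, Set.univ, fun _ _ _ _ h => h, fun w => by simp⟩

lemma base {𝔏} (G : Gr 𝔏) (m : ℕ)
    (h : (range m, {w | Over (range m) w}, (range m).image fun a => (([] : List ℕ), [a])) ∈ G.P) :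
    ∀ w, Over (range m) w → Relation.ReflTransGen (Step G) [] w := by
  intro w
  induction w using List.reverseRecOn with
  | nil => exact fun _ => .refl
  | append_singleton w a ih =>
    intro hw
    have h1 : Over (range m) w := fun b hb => hw b (by simp [hb])
    have h2 : a ∈ range m := hw a (by simp)
    exact (ih h1).tail ⟨_, h, h1, ([], [a]), mem_image_of_mem _ h2, rfl⟩

lemma ord_of_intervals {m : ℕ} {R : ℕ → ℕ → Prop} (h : Intervals (range m) R) :
    L m R ∈ EC ORD := by
  obtain ⟨pos, hinj, hcv⟩ := h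
  let G : Gr ORD :=
    { V := range (m + 1)
      A := {[], [m, m]}
      hA := by simp [Over]
      P := (range m, {w | Over (range m) w}, (range m).image fun a => (([] : List ℕ), [a])) ::
        (List.range m).map fun a =>
          (range m, {w | Over (range m) w ∧ (a :: w).IsChain R}, {([m, a], [m])})
      hP := by
        simp only [List.mem_cons, List.mem_map, forall_eq_or_imp]
        refine ⟨⟨range_subset_range.2 (by omega), ord_univ m, ?_⟩, ?_⟩
        · intro c hc
          obtain ⟨a, ha, rfl⟩ := mem_image.1 hc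
          have := mem_range.1 ha
          simp [Over]; omega
        · rintro _ ⟨a, ha, rfl⟩
          have ha' := List.mem_range.1 ha
          refine ⟨range_subset_range.2 (by omega), ord_aux hinj hcv (mem_range.2 ha'), ?_⟩
          intro c hc
          obtain rfl := mem_singleton.1 hc
          simp [Over]; omega }
  refine ⟨G, Set.ext fun w => ⟨?_, ?_⟩⟩
  · rintro ⟨a, ha, h⟩
    induction h with
    | refl =>
      simp only [G, mem_insert, mem_singleton] at ha
      rcases ha with rfl | rfl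
      · left; simp [Over]
      · right; exact ⟨[], by simp [Over], by simp, rfl⟩
    | tail _ h _ =>
      obtain ⟨p, hp, hx, c, hc, rfl⟩ := h
      simp only [G, List.mem_cons, List.mem_map] at hp
      rcases hp with rfl | ⟨a, ha, rfl⟩
      · left
        obtain ⟨b, hb, rfl⟩ := mem_image.1 hc
        intro d hd
        rw [List.nil_append, List.mem_append, List.mem_singleton] at hd
        rcases hd with hd | rfl
        exacts [hx d hd, hb]
      · right
        obtain rfl := mem_singleton.1 hc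
        refine ⟨_, ?_, hx.2, rfl⟩
        intro d hd
        rcases List.mem_cons.1 hd with rfl | hd
        exacts [mem_range.2 (List.mem_range.1 ha), hx.1 d hd]
  · rintro (h | ⟨v, h, h', rfl⟩)
    · exact ⟨[], by simp [G], base G m List.mem_cons_self w h⟩
    · rcases v with _ | ⟨a, v⟩
      · exact ⟨[m, m], by simp [G], .refl⟩
      · have hv : Over (range m) v := fun b hb => h b (by simp [hb])
        refine ⟨[], by simp [G], (base G m List.mem_cons_self v hv).tail
          ⟨_, List.mem_cons_of_mem _ (List.mem_map.2 ⟨a, ?_, rfl⟩), ⟨hv, h'⟩, _,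
            mem_singleton_self _, by simp⟩⟩
        exact List.mem_range.2 (mem_range.1 (h a (by simp)))

/-! ### Strictly locally testable selection always suffices -/

lemma chain_iff {k : ℕ} (hk : 2 ≤ k) (R : ℕ → ℕ → Prop) (w : List ℕ) (hw : k ≤ w.length) :
    w.IsChain R ↔ ∀ j, j + k ≤ w.length → ((w.drop j).take k).IsChain R := by
  refine ⟨fun h j _ => (h.drop j).take k, fun h => List.isChain_iff_getElem.2 fun i hi => ?_⟩
  have := h (min i (w.length - k)) (by omega)
  rw [List.isChain_iff_getElem] at this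
  have h2 := this (i - min i (w.length - k)) (by simp; omega)
  simp only [List.getElem_take, List.getElem_drop] at h2
  convert h2 using 2 <;> omega

lemma slt_chain {k : ℕ} (hk : 2 ≤ k) (m : ℕ) (R : ℕ → ℕ → Prop) :
    SLT k (range m) {w | Over (range m) w ∧ w.IsChain R} := by
  refine ⟨fun w h => h.1, {w | w.IsChain R}, {w | w.IsChain R}, {w | w.IsChain R},
    fun w h hw => ⟨fun h => ⟨h.2.take k, h.2.drop _, fun j _ _ => (h.2.drop j).take k⟩,
      fun ⟨h1, h2, h3⟩ => ⟨h, (chain_iff hk R w hw).2 fun j hj => ?_⟩⟩⟩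
  by_cases a : j = 0
  · subst a; exact h1
  by_cases b : j + k = w.length
  · rw [show j = w.length - k by omega]; exact List.IsChain.take h2 k
  exact h3 j (by omega) (by omega)

lemma slt_mem {k : ℕ} (hk : 2 ≤ k) (m : ℕ) (R : ℕ → ℕ → Prop) : L m R ∈ EC (SLT k) := by
  let G : Gr (SLT k) :=
    { V := range (m + 1)
      A := {[]}
      hA := by simp [Over]
      P := [(range m, {w | Over (range m) w}, (range m).image fun a => (([] : List ℕ), [a])),
        (range m, {w | Over (range m) w ∧ w.IsChain R}, {([m], [m])})]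
      hP := by
        simp only [List.mem_cons, List.not_mem_nil, or_false, forall_eq_or_imp, forall_eq]
        refine ⟨⟨range_subset_range.2 (by omega), ⟨fun w h => h, .univ, .univ, .univ,
          fun w h _ => by simpa using h⟩, ?_⟩, range_subset_range.2 (by omega),
          slt_chain hk m R, by simp [Over]⟩
        intro c hc
        obtain ⟨a, ha, rfl⟩ := mem_image.1 hc
        have := mem_range.1 ha
        simp [Over]; omega }
  refine ⟨G, Set.ext fun w => ⟨?_, ?_⟩⟩
  · rintro ⟨a, ha, h⟩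
    induction h with
    | refl =>
      obtain rfl := mem_singleton.1 ha
      left; simp [Over]
    | tail _ h _ =>
      obtain ⟨p, hp, hx, c, hc, rfl⟩ := h
      simp only [G, List.mem_cons, List.not_mem_nil, or_false] at hp
      rcases hp with rfl | rfl
      · left
        obtain ⟨b, hb, rfl⟩ := mem_image.1 hc
        intro d hd
        rw [List.nil_append, List.mem_append, List.mem_singleton] at hd
        rcases hd with hd | rfl
        exacts [hx d hd, hb]
      · obtain rfl := mem_singleton.1 hc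
        exact Or.inr ⟨_, hx.1, hx.2, rfl⟩
  · rintro (h | ⟨v, h, h', rfl⟩)
    · exact ⟨[], by simp [G], base G m List.mem_cons_self w h⟩
    · exact ⟨[], by simp [G], (base G m List.mem_cons_self v h).tail
        ⟨_, List.mem_cons_of_mem _ List.mem_cons_self, ⟨h, h'⟩, ([m], [m]), by simp, rfl⟩⟩

/-! ### The relation of being different -/

lemma sc_ne {m : ℕ} : StronglyConnected (range m) (· ≠ ·) := by
  intro a ha b hb
  by_cases h : a = b
  · exact h ▸ .refl
  · exact .single ⟨ha, hb, h⟩

lemma intervals_ne {m : ℕ} : Intervals (range m) (· ≠ ·) ↔ m ≤ 2 := by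
  constructor
  · rintro ⟨pos, hinj, hcv⟩
    by_contra hm
    have key : ∀ a b e : ℕ, a < 3 → b < 3 → e < 3 → a ≠ e → b ≠ e → pos a < pos e →
        pos e < pos b → False := fun a b e ha hb he hae hbe h1 h2 =>
      hcv a (mem_range.2 (by omega)) b (mem_range.2 (by omega)) e (mem_range.2 (by omega)) e
        (mem_range.2 (by omega)) hae hbe h1 h2 rfl
    have i1 : pos 0 ≠ pos 1 := fun h => by
      simpa using hinj (by simp; omega) (by simp; omega) h
    have i2 : pos 0 ≠ pos 2 := fun h => by
      simpa using hinj (by simp; omega) (by simp; omega) h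
    have i3 : pos 1 ≠ pos 2 := fun h => by
      simpa using hinj (by simp; omega) (by simp; omega) h
    rcases lt_or_gt_of_ne i1 with a | a <;> rcases lt_or_gt_of_ne i2 with b | b <;>
      rcases lt_or_gt_of_ne i3 with c | c
    · exact key 0 2 1 (by omega) (by omega) (by omega) (by omega) (by omega) a c
    · exact key 0 1 2 (by omega) (by omega) (by omega) (by omega) (by omega) b c
    · exact key 0 2 1 (by omega) (by omega) (by omega) (by omega) (by omega) a c
    · exact key 2 1 0 (by omega) (by omega) (by omega) (by omega) (by omega) b a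
    · exact key 1 2 0 (by omega) (by omega) (by omega) (by omega) (by omega) a b
    · omega
    · exact key 1 0 2 (by omega) (by omega) (by omega) (by omega) (by omega) c b
    · exact key 2 0 1 (by omega) (by omega) (by omega) (by omega) (by omega) c a
  · intro hm
    refine ⟨id, Function.injective_id.injOn, fun a ha b hb e he c hc _ _ h1 h2 => ?_⟩
    simp only [mem_range, id] at *
    omega

/-- Let `L m R = Σ* ∪ {m} K {m}`, where `Σ` consists of `m` letters and `K` of the words over `Σ`
whose consecutive letters satisfy `R`.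

* `L m R` is generated externally with strictly locally `k`-testable selection, for all `k ≥ 2`.
* If the letters can be lined up so that every in-neighbourhood of `R` is an interval, then
  `L m R` is generated externally with ordered selection.
* Conversely, if `L m R` is generated externally with ordered selection, then the letters of every
  strongly connected set can be lined up in such a way.  So for strongly connected `R` the
  criterion decides membership in `EC ORD`.
* In particular, for `R a b ↔ a ≠ b`, the language is in `EC ORD` exactly for `m ≤ 2`, so that it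
  is in `EC (SLT k) \ EC ORD` for all `m ≥ 3` and `k ≥ 2`. -/
theorem result :
    (∀ m R, (∀ k ≥ 2, L m R ∈ EC (SLT k)) ∧
      (Intervals (range m) R → L m R ∈ EC ORD) ∧
      (L m R ∈ EC ORD → ∀ C ⊆ range m, StronglyConnected C R → Intervals C R) ∧
      (StronglyConnected (range m) R → (L m R ∈ EC ORD ↔ Intervals (range m) R))) ∧
    (∀ m, L m (· ≠ ·) ∈ EC ORD ↔ m ≤ 2) ∧
    (∀ m ≥ 3, ∀ k ≥ 2, L m (· ≠ ·) ∈ EC (SLT k) \ EC ORD) := by
  have h1 : ∀ m, L m (· ≠ ·) ∈ EC ORD ↔ m ≤ 2 := fun m =>
    ⟨fun h => intervals_ne.1 (intervals_of_ord (Finset.Subset.refl _) sc_ne h),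
      fun h => ord_of_intervals (intervals_ne.2 h)⟩
  refine ⟨fun m R => ⟨fun k hk => slt_mem hk m R, ord_of_intervals,
    fun h C hC hs => intervals_of_ord hC hs h, fun hs =>
      ⟨fun h => intervals_of_ord (Finset.Subset.refl _) hs h, ord_of_intervals⟩⟩, h1,
    fun m hm k hk => ⟨slt_mem hk m _, fun h => ?_⟩⟩
  have := (h1 m).1 h
  omega

end Pool.Agent.Results.MP_4db40a_lc.IntervalCriterion
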